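import Pool.Agent.Q227.NB.Red

/-!
# Node Blocking on acyclic digraphs is PSPACE-complete

The reduction is from quantified formulas in conjunctive normal form. Left is the existential
player, Right the universal one; Right is to move. Only two vertices are vacant, `m_0` and `q`, so
that the game is generalized geography with two moving holes: a hole at `x` is moved to `y` by the
player who owns the token on `y`, for an arc `(y, x)`, and this token stays on `x`.

For each variable `i` there are the vertices `m_i, o_i^e, n_i^e, k_i^e` (`e = 0, 1`) with the arcs
`o_i^e → m_i`, `n_i^{e'} → o_i^e`, `k_i^e → n_i^e`, `m_{i+1} → k_i^e`; if the variable `i` is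
universal then only `n_i^e → o_i^e` is present (Right chooses `e` and Left has to follow), otherwise
Left chooses `e'`. Tokens on `o` and `k` are Right's, the others Left's. After the first hole has
passed the block, `k_i^e` carries a token of Left if and only if `e` is the value of the variable.
A token of Left on `a_i → m_i` and `b_i^e → n_i^e` punishes Right if he moves in the second part
prematurely. In the second part Right moves a token from a clause vertex `c_j` to `q`, Left moves a
token from a literal vertex `l_i^e` of this clause to `c_j`, and Right wants to answer by moving a
token from `k_i^e` to `l_i^e`, which is possible if and only if the literal is false.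
-/

namespace Pool.Agent.Results.MP_8607b9_lc.NodeBlockingDAG

open Pool.Agent.NPC Pool.Agent.H623R2.PS Pool.Agent.Q227.NB

/-- **NB-DAG is PSPACE-complete**, and it remains PSPACE-hard for positions with exactly two vacant
vertices. -/
theorem result : PSPACEComplete (lang NBDag) ∧ PSPACEHard (lang NBDagTwo) :=
  ⟨nbDag_complete, nbDagTwo_hard⟩

end Pool.Agent.Results.MP_8607b9_lc.NodeBlockingDAG
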